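import Pool.Agent.Y75.Dn.RatK

/-!
# Cyclotomic rationality from congruences
-/

set_option autoImplicit false

namespace Pool.Agent.Y75.Hk

open Finset

universe u v w

/-- `t` lies in `ℤ[s]` and `t ^ p ≡ t` modulo `p` in `ℤ[s]` for all large primes `p ≡ 1` mod `m` -/
def Cong (m : ℕ) {K : Type u} [Field K] (s : Finset K) (t : K) : Prop :=
  t ∈ Algebra.adjoin ℤ (s : Set K) ∧ ∃ B : ℕ, ∀ p : ℕ, p.Prime → B < p → p ≡ 1 [MOD m] →
    ∃ b ∈ Algebra.adjoin ℤ (s : Set K), t ^ p = t + p * b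

theorem Cong.algebraic {m : ℕ} (hm : 0 < m) {K : Type u} [Field K] [CharZero K] {s : Finset K}
    {t : K} (h : Cong m s t) : IsAlgebraic ℚ t := by
  classical
  by_contra htr
  obtain ⟨D, hD⟩ := Pool.Agent.H23R2.exists_derivation t htr
  obtain ⟨ht, B, hB⟩ := h
  let s' : Finset K := s ∪ s.image D
  have hfin := Pool.Agent.H23R2.finite_dvd_primes s' (D t) hD
  have hinf := Nat.infinite_setOfPred_prime_modEq_one (k := m) hm.ne'
  have hfin2 : ({p : ℕ | p ≤ B} : Set ℕ).Finite := Set.finite_le_nat B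
  apply hinf
  refine (hfin.union hfin2).subset ?_
  rintro p ⟨hp, hpm⟩
  rcases le_or_gt p B with hpB | hpB
  · exact Or.inr hpB
  left
  refine ⟨hp, ?_⟩
  obtain ⟨b, hb, hbt⟩ := hB p hp hpB hpm
  have h1 : D t = p * (t ^ (p - 1) * D t - D b) := by
    have h2 := congrArg D hbt
    rw [map_add, Derivation.leibniz_pow, Derivation.leibniz, ← map_natCast (algebraMap ℤ K) p,
      D.map_algebraMap, map_natCast] at h2
    simp only [smul_eq_mul, nsmul_eq_mul, mul_zero, add_zero] at h2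
    rw [mul_sub, h2]
    ring
  refine ⟨t ^ (p - 1) * D t - D b, ?_, h1⟩
  have hsub : ((s : Finset K) : Set K) ⊆ ((s' : Finset K) : Set K) := by
    rw [Finset.coe_union]
    exact Set.subset_union_left
  exact Subalgebra.sub_mem _ (Subalgebra.mul_mem _ (Subalgebra.pow_mem _
    (Algebra.adjoin_mono hsub ht) _) (Pool.Agent.Y75.Dn.der_mem D s t ht))
    (Pool.Agent.Y75.Dn.der_mem D s b hb)

lemma adjoin_map {K : Type u} {L : Type v} [Field K] [Field L] [DecidableEq L] (T : Subring K)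
    (ψ : T →+* L) (s : Finset K) (hs : (s : Set K) ⊆ T) (x : K)
    (hx : x ∈ Algebra.adjoin ℤ (s : Set K)) :
    ∃ h : x ∈ T, ψ ⟨x, h⟩ ∈ Algebra.adjoin ℤ
      ((s.attach.image fun a => ψ ⟨a.1, hs a.2⟩ : Finset L) : Set L) := by
  induction hx using Algebra.adjoin_induction with
  | mem x hx =>
    refine ⟨hs hx, Algebra.subset_adjoin ?_⟩
    rw [Finset.coe_image]
    exact ⟨⟨x, hx⟩, Finset.mem_coe.2 (Finset.mem_attach _ _), rfl⟩
  | algebraMap r =>
    have h : algebraMap ℤ K r ∈ T := by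
      rw [eq_intCast]
      exact intCast_mem T r
    refine ⟨h, ?_⟩
    have h2 : (⟨algebraMap ℤ K r, h⟩ : T) = (r : T) := by
      apply Subtype.ext
      show algebraMap ℤ K r = _
      rw [eq_intCast]
      push_cast
      rfl
    rw [h2, map_intCast]
    exact intCast_mem _ r
  | add x y _ _ hx hy =>
    obtain ⟨h1, h2⟩ := hx
    obtain ⟨h3, h4⟩ := hy
    refine ⟨T.add_mem h1 h3, ?_⟩
    have h5 : (⟨x + y, T.add_mem h1 h3⟩ : T) = ⟨x, h1⟩ + ⟨y, h3⟩ := rfl
    rw [h5, map_add]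
    exact Subalgebra.add_mem _ h2 h4
  | mul x y _ _ hx hy =>
    obtain ⟨h1, h2⟩ := hx
    obtain ⟨h3, h4⟩ := hy
    refine ⟨T.mul_mem h1 h3, ?_⟩
    have h5 : (⟨x * y, T.mul_mem h1 h3⟩ : T) = ⟨x, h1⟩ * ⟨y, h3⟩ := rfl
    rw [h5, map_mul]
    exact Subalgebra.mul_mem _ h2 h4

/-- the congruences are preserved by specialisation -/
lemma Cong.map {m : ℕ} {K : Type u} {L : Type v} [Field K] [Field L] [DecidableEq L]
    {s : Finset K} {t : K} (h : Cong m s t) (T : Subring K) (ψ : T →+* L)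
    (hs : (s : Set K) ⊆ T) :
    ∃ h : t ∈ T, Cong m (s.attach.image fun a => ψ ⟨a.1, hs a.2⟩ : Finset L) (ψ ⟨t, h⟩) := by
  obtain ⟨ht, B, hB⟩ := h
  obtain ⟨h1, h2⟩ := adjoin_map T ψ s hs t ht
  refine ⟨h1, h2, B, fun p hp hpB hpm => ?_⟩
  obtain ⟨b, hb, hbt⟩ := hB p hp hpB hpm
  obtain ⟨h3, h4⟩ := adjoin_map T ψ s hs b hb
  refine ⟨_, h4, ?_⟩
  have h5 : (⟨t, h1⟩ : T) ^ p = ⟨t, h1⟩ + p * ⟨b, h3⟩ := by
    apply Subtype.ext
    push_cast
    exact hbt
  have h6 := congrArg ψ h5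
  rwa [map_pow, map_add, map_mul, map_natCast] at h6

open NumberField Pool.Agent.W401.Cheb in
/-- the number field case -/
theorem Cong.numberField {m : ℕ} (hm : 0 < m) {L : Type} [Field L] [NumberField L] [IsGalois ℚ L]
    {s : Finset L} {t : L} (h : Cong m s t) (ζ : L) (hζ : IsPrimitiveRoot ζ m) :
    t ∈ IntermediateField.adjoin ℚ {ζ} := by
  classical
  obtain ⟨hts, B, hB⟩ := h
  have halgZ : Algebra.IsAlgebraic ℤ L := by
    have h1 : Algebra.IsAlgebraic ℤ ℚ := IsLocalization.isAlgebraic ℚ (nonZeroDivisors ℤ)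
    exact Algebra.IsAlgebraic.trans ℤ ℚ L
  obtain ⟨y, hy0, hy⟩ := Algebra.IsAlgebraic.exists_integral_multiples ℤ s
  have hyK : ((y : ℤ) : L) ≠ 0 := by exact_mod_cast hy0
  let O : Subring L := (integralClosure ℤ L).toSubring
  have hyO : ((y : ℤ) : L) ∈ O := intCast_mem O y
  have hmem : ∀ x ∈ Algebra.adjoin ℤ (s : Set L), ∃ k : ℕ, ((y : ℤ) : L) ^ k * x ∈ O := by
    intro x hx
    induction hx using Algebra.adjoin_induction with
    | mem x hx =>
      refine ⟨1, ?_⟩
      have := hy x hx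
      rw [zsmul_eq_mul] at this
      rw [pow_one]
      exact this
    | algebraMap r =>
      refine ⟨0, ?_⟩
      rw [pow_zero, one_mul, eq_intCast]
      exact intCast_mem O r
    | add a b _ _ ha hb =>
      obtain ⟨k, hk⟩ := ha
      obtain ⟨l, hl⟩ := hb
      refine ⟨k + l, ?_⟩
      have h1 : ((y : ℤ) : L) ^ (k + l) * (a + b) = ((y : ℤ) : L) ^ l * (((y : ℤ) : L) ^ k * a) +
        ((y : ℤ) : L) ^ k * (((y : ℤ) : L) ^ l * b) := by ring
      rw [h1]
      exact O.add_mem (O.mul_mem (O.pow_mem hyO _) hk) (O.mul_mem (O.pow_mem hyO _) hl)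
    | mul a b _ _ ha hb =>
      obtain ⟨k, hk⟩ := ha
      obtain ⟨l, hl⟩ := hb
      refine ⟨k + l, ?_⟩
      have h1 : ((y : ℤ) : L) ^ (k + l) * (a * b) = (((y : ℤ) : L) ^ k * a) *
        (((y : ℤ) : L) ^ l * b) := by ring
      rw [h1]
      exact O.mul_mem hk hl
  obtain ⟨k, hk⟩ := hmem t hts
  let z : 𝓞 L := ⟨((y : ℤ) : L) ^ k * t, hk⟩
  have hζO : IsIntegral ℤ ζ := hζ.isIntegral hm
  let ζ' : 𝓞 L := ⟨ζ, hζO⟩
  have hζ' : IsPrimitiveRoot ζ' m := by
    rw [← IsPrimitiveRoot.map_iff_of_injective (f := algebraMap (𝓞 L) L)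
      RingOfIntegers.coe_injective]
    exact hζ
  have key : ∀ g : Gal(L/ℚ), g ζ = ζ → g • z = z := by
    intro g hg
    by_contra hne
    have hw : g • z - z ≠ 0 := sub_ne_zero.2 hne
    let M : ℕ := Ideal.absNorm (Ideal.span {g • z - z})
    have hm0 : M ≠ 0 := by
      rw [Ne, Ideal.absNorm_eq_zero_iff, Ideal.span_singleton_eq_bot]
      exact hw
    have hmm : (M : 𝓞 L) ∈ Ideal.span {g • z - z} := Ideal.absNorm_mem _
    obtain ⟨c, hc⟩ := Ideal.mem_span_singleton.1 hmm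
    -- a large prime with Frobenius `g`
    obtain ⟨p, hp1, hp2⟩ := (infinite_frob L g).exists_gt (M + y.natAbs + B + m)
    obtain ⟨hpp, hxp⟩ := hp1
    have hpp : p.Prime := hpp
    have : Fact p.Prime := ⟨hpp⟩
    unfold xp at hxp
    rw [dif_pos hpp] at hxp
    have hne2 : Nonempty {φ : 𝓞 L →+* AlgebraicClosure (ZMod p) // HasFrob p φ g} := by
      by_contra hcon
      rw [not_nonempty_iff] at hcon
      exact hxp Nat.card_of_isEmpty
    obtain ⟨⟨φ, hφ⟩⟩ := hne2
    have hcp : CharP (AlgebraicClosure (ZMod p)) p :=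
      charP_of_injective_algebraMap (algebraMap (ZMod p) _).injective p
    -- `p ≡ 1` modulo `m`
    have hpm : p ≡ 1 [MOD m] := by
      have hm0' : NeZero (m : AlgebraicClosure (ZMod p)) := by
        refine ⟨fun h => ?_⟩
        rw [CharP.cast_eq_zero_iff (AlgebraicClosure (ZMod p)) p] at h
        have := Nat.le_of_dvd hm h
        omega
      have h1 : IsPrimitiveRoot (φ ζ') m := by
        rw [← Polynomial.isRoot_cyclotomic_iff]
        have h2 := hζ'.isRoot_cyclotomic hm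
        have h3 := h2.map (f := φ)
        rwa [Polynomial.map_cyclotomic] at h3
      have h2 : g • ζ' = ζ' := by
        apply RingOfIntegers.coe_injective
        exact hg
      have h3 : φ ζ' = φ ζ' ^ p := by
        conv_lhs => rw [← h2]
        exact hφ ζ'
      have h4 : φ ζ' ^ (p - 1) = 1 := by
        have h5 : φ ζ' ≠ 0 := h1.ne_zero hm.ne'
        have h6 : φ ζ' * φ ζ' ^ (p - 1) = φ ζ' * 1 := by
          rw [← pow_succ', show p - 1 + 1 = p by have := hpp.pos; omega, ← h3, mul_one]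
        exact mul_left_cancel₀ h5 h6
      have h5 := h1.dvd_of_pow_eq_one _ h4
      exact ((Nat.modEq_iff_dvd' hpp.pos).2 h5).symm
    obtain ⟨b, hb, hbt⟩ := hB p hpp (by omega) hpm
    obtain ⟨l, hl⟩ := hmem b hb
    let b' : 𝓞 L := ⟨((y : ℤ) : L) ^ l * b, hl⟩
    have h3 : ((y : ℤ) : 𝓞 L) ^ l * z ^ p = ((y : ℤ) : 𝓞 L) ^ l *
        ((((y : ℤ) : 𝓞 L) ^ (p - 1)) ^ k * z) + (p : 𝓞 L) * (((y : ℤ) : 𝓞 L) ^ (k * p) * b') := by
      apply RingOfIntegers.coe_injective
      push_cast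
      show ((y : ℤ) : L) ^ l * (((y : ℤ) : L) ^ k * t) ^ p = ((y : ℤ) : L) ^ l *
        ((((y : ℤ) : L) ^ (p - 1)) ^ k * (((y : ℤ) : L) ^ k * t)) +
        (p : L) * (((y : ℤ) : L) ^ (k * p) * (((y : ℤ) : L) ^ l * b))
      have h4 : (((y : ℤ) : L) ^ (p - 1)) ^ k * ((y : ℤ) : L) ^ k = ((y : ℤ) : L) ^ (k * p) := by
        rw [← mul_pow, ← pow_succ, show p - 1 + 1 = p by have := hpp.pos; omega, ← pow_mul,
          mul_comm p k]
      rw [← mul_assoc ((((y : ℤ) : L) ^ (p - 1)) ^ k), h4, mul_pow, hbt, ← pow_mul]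
      ring
    have hyp : ¬ (p : ℤ) ∣ y := by
      intro h
      have h4 := Nat.le_of_dvd (Int.natAbs_pos.2 hy0) (Int.natCast_dvd.1 h)
      omega
    have h5 : ((y : ℤ) : ZMod p) ≠ 0 := by
      rw [Ne, ZMod.intCast_zmod_eq_zero_iff_dvd]
      exact hyp
    have hyφ0 : (((y : ℤ) : AlgebraicClosure (ZMod p))) ≠ 0 := by
      intro h
      apply h5
      apply (algebraMap (ZMod p) (AlgebraicClosure (ZMod p))).injective
      rw [map_intCast, map_zero]
      exact h
    have hyφ : (((y : ℤ) : AlgebraicClosure (ZMod p))) ^ (p - 1) = 1 := by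
      have h6 := ZMod.pow_card_sub_one_eq_one h5
      have h7 := congrArg (algebraMap (ZMod p) (AlgebraicClosure (ZMod p))) h6
      simpa using h7
    have h4 := congrArg φ h3
    rw [map_mul, map_pow, map_pow, map_intCast, map_add, map_mul, map_mul, map_pow, map_pow,
      map_pow, map_intCast, hyφ, one_pow, one_mul, map_mul, map_natCast,
      CharP.cast_eq_zero, zero_mul, add_zero] at h4
    have h4' : φ z ^ p = φ z := mul_left_cancel₀ (pow_ne_zero l hyφ0) h4
    have h5 : φ (g • z - z) = 0 := by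
      rw [map_sub, hφ z, h4', sub_self]
    have h6 : ((M : ℕ) : AlgebraicClosure (ZMod p)) = 0 := by
      rw [← map_natCast φ M, hc, map_mul, h5, zero_mul]
    rw [CharP.cast_eq_zero_iff (AlgebraicClosure (ZMod p)) p] at h6
    have h7 := Nat.le_of_dvd (Nat.pos_of_ne_zero hm0) h6
    omega
  have hfix : ((y : ℤ) : L) ^ k * t ∈ IntermediateField.adjoin ℚ {ζ} := by
    rw [← IsGalois.fixedField_fixingSubgroup (IntermediateField.adjoin ℚ {ζ}),
      IntermediateField.mem_fixedField_iff]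
    intro g hg
    have h1 : g ζ = ζ := by
      rw [IntermediateField.mem_fixingSubgroup_iff] at hg
      exact hg ζ (IntermediateField.mem_adjoin_simple_self ℚ ζ)
    have := congrArg (fun a : 𝓞 L => (a : L)) (key g h1)
    exact this
  have h1 : t = (((y : ℤ) : L) ^ k)⁻¹ * (((y : ℤ) : L) ^ k * t) := by
    rw [← mul_assoc, inv_mul_cancel₀ (pow_ne_zero k hyK), one_mul]
  rw [h1]
  exact mul_mem (inv_mem (pow_mem (intCast_mem _ y) k)) hfix

/-- the case of algebraic numbers -/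
theorem Cong.algNum {m : ℕ} (hm : 0 < m) {s : Finset (AlgebraicClosure ℚ)}
    {t : AlgebraicClosure ℚ} (h : Cong m s t) (ζ : AlgebraicClosure ℚ)
    (hζ : IsPrimitiveRoot ζ m) : t ∈ IntermediateField.adjoin ℚ {ζ} := by
  classical
  have hA := Pool.Agent.Y75.Dn.isAlg
  have hN := Pool.Agent.Y75.Dn.isNormal
  let S : Set (AlgebraicClosure ℚ) := ((insert ζ s : Finset (AlgebraicClosure ℚ)) : Set _)
  let M : IntermediateField ℚ (AlgebraicClosure ℚ) := IntermediateField.adjoin ℚ S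
  have hMfin : FiniteDimensional ℚ M := by
    apply IntermediateField.finiteDimensional_adjoin
    intro x _
    exact Algebra.IsIntegral.isIntegral x
  let N : IntermediateField ℚ (AlgebraicClosure ℚ) :=
    IntermediateField.normalClosure ℚ M (AlgebraicClosure ℚ)
  have hMN : M ≤ N := IntermediateField.le_normalClosure M
  have hNfin : FiniteDimensional ℚ N := normalClosure.is_finiteDimensional ℚ M _
  have hNnf : NumberField N := { to_charZero := inferInstance, to_finiteDimensional := hNfin }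
  have hNn : Normal ℚ N := normalClosure.normal ℚ M _
  have hNgal : IsGalois ℚ N := { }
  let A : Subring (AlgebraicClosure ℚ) := N.toSubalgebra.toSubring
  let θ : A →+* N :=
    { toFun := fun x => ⟨x.1, x.2⟩
      map_one' := rfl
      map_mul' := fun _ _ => rfl
      map_zero' := rfl
      map_add' := fun _ _ => rfl }
  obtain ⟨h1, h2⟩ := h.map A θ
    (fun x hx => hMN (IntermediateField.subset_adjoin ℚ S
      (Finset.mem_coe.2 (Finset.mem_insert_of_mem hx))))
  have hζN : ζ ∈ N := hMN (IntermediateField.subset_adjoin ℚ S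
      (Finset.mem_coe.2 (Finset.mem_insert_self _ _)))
  have hζ' : IsPrimitiveRoot (⟨ζ, hζN⟩ : N) m := by
    rw [← IsPrimitiveRoot.map_iff_of_injective (f := algebraMap N (AlgebraicClosure ℚ))
      (algebraMap N (AlgebraicClosure ℚ)).injective]
    exact hζ
  have h3 := h2.numberField hm ⟨ζ, hζN⟩ hζ'
  have h4 : ∀ x ∈ IntermediateField.adjoin ℚ {(⟨ζ, hζN⟩ : N)},
      (x : AlgebraicClosure ℚ) ∈ IntermediateField.adjoin ℚ {ζ} := by
    intro x hx
    induction hx using IntermediateField.adjoin_induction with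
    | mem x hx =>
      rw [Set.mem_singleton_iff] at hx
      rw [hx]
      exact IntermediateField.mem_adjoin_simple_self ℚ ζ
    | algebraMap x =>
      rw [eq_ratCast]
      push_cast
      have h5 := (IntermediateField.adjoin ℚ {ζ}).algebraMap_mem x
      rwa [eq_ratCast] at h5
    | add x y _ _ hx hy => exact add_mem hx hy
    | inv x _ hx => exact inv_mem hx
    | mul x y _ _ hx hy => exact mul_mem hx hy
  exact h4 _ h3

/-- transfer of a root lying in a cyclotomic field -/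
lemma transfer {k : Type u} [Field k] {m : ℕ} [NeZero m] {L₁ : Type v} {L₂ : Type w} [Field L₁]
    [Field L₂] [Algebra k L₁] [Algebra k L₂] (ζ₁ : L₁) (h₁ : IsPrimitiveRoot ζ₁ m) (ζ₂ : L₂)
    (h₂ : IsPrimitiveRoot ζ₂ m) (f : Polynomial k) (hf : Irreducible f) (hfm : f.Monic)
    (x₁ : L₁) (hx₁ : x₁ ∈ IntermediateField.adjoin k {ζ₁}) (hf₁ : Polynomial.aeval x₁ f = 0)
    (x₂ : L₂) (hf₂ : Polynomial.aeval x₂ f = 0) : x₂ ∈ IntermediateField.adjoin k {ζ₂} := by
  have hi1 : IsIntegral k ζ₁ := IsIntegral.of_pow (NeZero.pos m) (by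
    rw [h₁.pow_eq_one]; exact isIntegral_one)
  have hi2 : IsIntegral k ζ₂ := IsIntegral.of_pow (NeZero.pos m) (by
    rw [h₂.pow_eq_one]; exact isIntegral_one)
  have hc1 : IsCyclotomicExtension {m} k (IntermediateField.adjoin k {ζ₁}) := by
    change IsCyclotomicExtension {m} k (IntermediateField.adjoin k {ζ₁}).toSubalgebra
    rw [IntermediateField.adjoin_simple_toSubalgebra_of_isAlgebraic hi1.isAlgebraic]
    exact h₁.adjoin_isCyclotomicExtension k
  have hc2 : IsCyclotomicExtension {m} k (IntermediateField.adjoin k {ζ₂}) := by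
    change IsCyclotomicExtension {m} k (IntermediateField.adjoin k {ζ₂}).toSubalgebra
    rw [IntermediateField.adjoin_simple_toSubalgebra_of_isAlgebraic hi2.isAlgebraic]
    exact h₂.adjoin_isCyclotomicExtension k
  let E₁ := IntermediateField.adjoin k {ζ₁}
  let E₂ := IntermediateField.adjoin k {ζ₂}
  let e : E₁ ≃ₐ[k] E₂ := IsCyclotomicExtension.algEquiv {m} k E₁ E₂
  let x : E₂ := e ⟨x₁, hx₁⟩
  have hx0 : Polynomial.aeval (⟨x₁, hx₁⟩ : E₁) f = 0 := by
    apply Subtype.ext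
    have h3 := Polynomial.aeval_algHom_apply E₁.val (⟨x₁, hx₁⟩ : E₁) f
    rw [← IntermediateField.coe_val, ← h3]
    simpa using hf₁
  have hx : Polynomial.aeval x f = 0 := by
    have h3 := Polynomial.aeval_algHom_apply (e : E₁ →ₐ[k] E₂) (⟨x₁, hx₁⟩ : E₁) f
    rw [hx0, map_zero] at h3
    exact h3
  have hmin : f = minpoly k x := minpoly.eq_of_irreducible_of_monic hf hx hfm
  have hgal : IsGalois k E₂ := IsCyclotomicExtension.isGalois {m} k E₂
  have hspl : ((f.map (algebraMap k E₂))).Splits := by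
    rw [hmin]
    exact Normal.splits inferInstance x
  have hne : f.map (algebraMap k E₂) ≠ 0 := Polynomial.map_ne_zero hf.ne_zero
  have hroot : ((f.map (algebraMap k E₂)).map (algebraMap E₂ L₂)).IsRoot x₂ := by
    rw [Polynomial.map_map, ← IsScalarTower.algebraMap_eq k E₂ L₂, Polynomial.IsRoot.def,
      Polynomial.eval_map_algebraMap]
    exact hf₂
  obtain ⟨y, hy⟩ := hspl.mem_range_of_isRoot hne hroot
  rw [← hy]
  exact y.2

/-- **Cyclotomic rationality.** -/
theorem Cong.main {m : ℕ} (hm : 0 < m) {K : Type u} [Field K] [CharZero K] {s : Finset K} {t : K}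
    (h : Cong m s t) {L : Type v} [Field L] [CharZero L] [Algebra K L] (ζ : L)
    (hζ : IsPrimitiveRoot ζ m) : algebraMap K L t ∈ IntermediateField.adjoin ℚ {ζ} := by
  classical
  have halg : IsIntegral ℚ t := (h.algebraic hm).isIntegral
  have hm0 : NeZero m := ⟨hm.ne'⟩
  -- a point over the algebraic numbers
  let T : Subalgebra ℚ K := Algebra.adjoin ℚ (s : Set K)
  have hft : Algebra.FiniteType ℚ T := by
    rw [← Subalgebra.fg_iff_finiteType]
    exact ⟨_, rfl⟩
  obtain ⟨L₀, _, _, _, ⟨π⟩⟩ := Pool.Agent.H23R2.exists_point T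
  let ι : L₀ →ₐ[ℚ] AlgebraicClosure ℚ := IsAlgClosed.lift
  let ψ : T →ₐ[ℚ] AlgebraicClosure ℚ := ι.comp π
  obtain ⟨h1, h2⟩ := h.map T.toSubring (ψ : T →+* AlgebraicClosure ℚ) Algebra.subset_adjoin
  obtain ⟨ζ', hζ'⟩ : ∃ ζ' : AlgebraicClosure ℚ, IsPrimitiveRoot ζ' m :=
    HasEnoughRootsOfUnity.exists_primitiveRoot (AlgebraicClosure ℚ) m
  have h3 := h2.algNum hm ζ' hζ'
  -- it is a root of the minimal polynomial
  have h4 : Polynomial.aeval (⟨t, h1⟩ : T) (minpoly ℚ t) = 0 := by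
    apply Subtype.ext
    rw [← Subalgebra.coe_val, ← Polynomial.aeval_algHom_apply]
    exact minpoly.aeval _ _
  have h5 : Polynomial.aeval (ψ ⟨t, h1⟩) (minpoly ℚ t) = 0 := by
    rw [Polynomial.aeval_algHom_apply, h4, map_zero]
  refine transfer ζ' hζ' ζ hζ (minpoly ℚ t) (minpoly.irreducible halg) (minpoly.monic halg)
    (ψ ⟨t, h1⟩) h3 h5 (algebraMap K L t) ?_
  have h6 := Polynomial.hom_eval₂ (minpoly ℚ t) (algebraMap ℚ K) (algebraMap K L) t
  have h7 : Polynomial.eval₂ (algebraMap ℚ K) t (minpoly ℚ t) = 0 := minpoly.aeval ℚ t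
  rw [h7, map_zero] at h6
  rw [Polynomial.aeval_def, show algebraMap ℚ L = (algebraMap K L).comp (algebraMap ℚ K) from
    Subsingleton.elim _ _]
  exact h6.symm

/-- The case `m = 1`. -/
theorem Cong.rat {K : Type u} [Field K] [CharZero K] {s : Finset K} {t : K}
    (h : Cong 1 s t) : ∃ q : ℚ, (q : K) = t := by
  have h1 := h.main one_pos (L := K) 1 IsPrimitiveRoot.one
  rw [IntermediateField.adjoin_simple_eq_bot_iff.2 (one_mem _), IntermediateField.mem_bot] at h1
  obtain ⟨q, hq⟩ := h1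
  refine ⟨q, ?_⟩
  rw [eq_ratCast] at hq
  rw [hq]
  rfl

end Pool.Agent.Y75.Hk
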