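import Pool.Agent.Y75.Hk.Three
import Pool.Agent.Y75.Hk.Four

/-!
# Rationality of the Dennis trace at elements of finite order
-/

set_option autoImplicit false

namespace Pool.Agent.Y75.Hk

open Finset Pool.Agent.W644.HK

universe u v w x

/-- elements which are fixed by the `p`-th power modulo `p` -/
lemma pow_mul_cong {K : Type u} [Field K] (A : Subring K) (p : ℕ) {a b : K} (ha : a ∈ A)
    (hb : b ∈ A) (h1 : ∃ c ∈ A, a ^ p = a + p * c) (h2 : ∃ c ∈ A, b ^ p = b + p * c) :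
    ∃ c ∈ A, (a * b) ^ p = a * b + p * c := by
  obtain ⟨c, hc, h1⟩ := h1
  obtain ⟨d, hd, h2⟩ := h2
  refine ⟨a * d + c * b + p * (c * d), ?_, by rw [mul_pow, h1, h2]; ring⟩
  exact A.add_mem (A.add_mem (A.mul_mem ha hd) (A.mul_mem hc hb))
    (A.mul_mem (natCast_mem A p) (A.mul_mem hc hd))

lemma int_cong {K : Type u} [Field K] (A : Subring K) (p : ℕ) (hp : p.Prime) (a : ℤ) :
    ∃ c ∈ A, (a : K) ^ p = a + p * c := by
  have : Fact p.Prime := ⟨hp⟩
  have h1 : ((a ^ p - a : ℤ) : ZMod p) = 0 := by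
    push_cast
    rw [ZMod.pow_card, sub_self]
  rw [ZMod.intCast_zmod_eq_zero_iff_dvd] at h1
  obtain ⟨c, hc⟩ := h1
  refine ⟨c, intCast_mem A c, ?_⟩
  have h2 : a ^ p = a + p * c := by rw [← hc]; ring
  exact_mod_cast congrArg (fun x : ℤ => (x : K)) h2

lemma inv_cong {K : Type u} [Field K] [CharZero K] (A : Subring K) (p : ℕ) (hp : p.Prime) (N : ℕ)
    (hN : 0 < N) (hNA : (N : K)⁻¹ ∈ A) : ∃ c ∈ A, ((N : K)⁻¹) ^ p = (N : K)⁻¹ + p * c := by
  obtain ⟨c, hc, h⟩ := int_cong A p hp (N : ℤ)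
  refine ⟨-(c * ((N : K)⁻¹) ^ (p + 1)), A.neg_mem (A.mul_mem hc (A.pow_mem hNA _)), ?_⟩
  have hN0 : (N : K) ≠ 0 := by exact_mod_cast hN.ne'
  rw [Int.cast_natCast] at h
  have h1 : ((N : K)⁻¹) ^ (p + 1) * (N : K) ^ p = (N : K)⁻¹ := by
    rw [pow_succ', mul_assoc, ← mul_pow, inv_mul_cancel₀ hN0, one_pow, mul_one]
  have h2 : ((N : K)⁻¹) ^ (p + 1) * (N : K) = ((N : K)⁻¹) ^ p := by
    rw [pow_succ, mul_assoc, inv_mul_cancel₀ hN0, mul_one]
  rw [h, mul_add, h2] at h1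
  linear_combination h1

theorem cong_dennis {K : Type u} [Field K] [CharZero K] {Γ : Type v} [Group Γ] {r : Type w}
    [Fintype r] [DecidableEq r] {n : ℕ}
    (z : (Fin (n + 1) → (Matrix r r (MonoidAlgebra K Γ))ˣ) →₀ ℤ) (hz : barBoundary z = 0)
    (m : ℕ) (hm : 0 < m) (N : ℕ) (hN : 0 < N)
    (f : (Fin (n + 2) → Γ) → ℚ) (hfN : ∀ g, ∃ (k : ℕ) (a : ℤ), f g * (N : ℚ) ^ k = a)
    (hf : IsHochschildCocycle f) (hfm : ∀ g, (List.ofFn g).prod ^ m ≠ 1 → f g = 0) :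
    ∃ s : Finset K, Cong m s (dennis (fun g => ((f g : ℚ) : K)) z) := by
  classical
  refine ⟨insert (N : K)⁻¹ (zcoef z), ?_⟩
  set A : Subring K := (Algebra.adjoin ℤ ((insert (N : K)⁻¹ (zcoef z) : Finset K) :
    Set K)).toSubring with hAdef
  have hNA : (N : K)⁻¹ ∈ A := Algebra.subset_adjoin (Finset.mem_coe.2 (mem_insert_self _ _))
  have hN0 : (N : K) ≠ 0 := by exact_mod_cast hN.ne'
  have hfv : ∀ g, ∃ (k : ℕ) (a : ℤ), ((f g : ℚ) : K) = a * ((N : K)⁻¹) ^ k := by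
    intro g
    obtain ⟨k, a, h⟩ := hfN g
    refine ⟨k, a, ?_⟩
    have h1 : ((f g : ℚ) : K) * (N : K) ^ k = a := by exact_mod_cast congrArg (fun x : ℚ => (x : K)) h
    rw [← h1, mul_assoc, ← mul_pow, mul_inv_cancel₀ hN0, one_pow, mul_one]
  have key := congr_main z hz m hm (fun g => ((f g : ℚ) : K))
    (hoch_push f hf (Rat.castHom K).toAddMonoidHom)
    (fun g hg => by simp only [hfm g hg, Rat.cast_zero]) A
    (fun c hc => Algebra.subset_adjoin (Finset.mem_coe.2 (mem_insert_of_mem hc)))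
    (fun g => by
      obtain ⟨k, a, h⟩ := hfv g
      rw [h]
      exact A.mul_mem (intCast_mem A a) (A.pow_mem hNA k)) 0
    (fun p hp _ _ g => by
      obtain ⟨k, a, h⟩ := hfv g
      simp only [h]
      refine pow_mul_cong A p (intCast_mem A a) (A.pow_mem hNA k) (int_cong A p hp a) ?_
      clear h
      induction k with
      | zero => exact ⟨0, A.zero_mem, by simp⟩
      | succ k ih =>
        rw [pow_succ]
        exact pow_mul_cong A p (A.pow_mem hNA k) hNA ih (inv_cong A p hp N hN hNA))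
  exact key

/-- **Cyclotomic rationality of the Dennis trace.** -/
theorem dennis_cyclotomic {K : Type u} [Field K] [CharZero K] {Γ : Type v} [Group Γ] {r : Type w}
    [Fintype r] [DecidableEq r] {n : ℕ}
    (z : (Fin (n + 1) → (Matrix r r (MonoidAlgebra K Γ))ˣ) →₀ ℤ) (hz : barBoundary z = 0)
    (m : ℕ) (hm : 0 < m) (N : ℕ) (hN : 0 < N)
    (f : (Fin (n + 2) → Γ) → ℚ) (hfN : ∀ g, ∃ (k : ℕ) (a : ℤ), f g * (N : ℚ) ^ k = a)
    (hf : IsHochschildCocycle f) (hfm : ∀ g, (List.ofFn g).prod ^ m ≠ 1 → f g = 0)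
    {L : Type x} [Field L] [CharZero L] [Algebra K L] (ζ : L) (hζ : IsPrimitiveRoot ζ m) :
    algebraMap K L (dennis (fun g => ((f g : ℚ) : K)) z) ∈ IntermediateField.adjoin ℚ {ζ} := by
  obtain ⟨s, hs⟩ := cong_dennis z hz m hm N hN f hfN hf hfm
  exact hs.main hm ζ hζ

/-- **Rationality of the Dennis trace at the identity.** -/
theorem dennis_rational {K : Type u} [Field K] [CharZero K] {Γ : Type v} [Group Γ] {r : Type w}
    [Fintype r] [DecidableEq r] {n : ℕ}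
    (z : (Fin (n + 1) → (Matrix r r (MonoidAlgebra K Γ))ˣ) →₀ ℤ) (hz : barBoundary z = 0)
    (N : ℕ) (hN : 0 < N)
    (f : (Fin (n + 2) → Γ) → ℚ) (hfN : ∀ g, ∃ (k : ℕ) (a : ℤ), f g * (N : ℚ) ^ k = a)
    (hf : IsHochschildCocycle f) (hfm : ∀ g, (List.ofFn g).prod ≠ 1 → f g = 0) :
    ∃ q : ℚ, dennis (fun g => ((f g : ℚ) : K)) z = q := by
  obtain ⟨s, hs⟩ := cong_dennis z hz 1 one_pos N hN f hfN hf
    (fun g hg => hfm g (by rwa [pow_one] at hg))
  obtain ⟨q, hq⟩ := hs.rat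
  exact ⟨q, hq.symm⟩

end Pool.Agent.Y75.Hk
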