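import Pool.Agent.Y75.Hk.Two
import Pool.Agent.W644.HK.Char0Main

/-!
# Reduction modulo primes: the congruence `T ^ p ≡ T`
-/

set_option autoImplicit false
set_option linter.unusedSectionVars false

namespace Pool.Agent.Y75.Hk

open Finset Pool.Agent.W644.HK

universe u v w x y z

section nat

variable {A : Type*} [CommRing A] {F : Type*} [CommRing F] {H : Type*} [Group H]
  {r : Type*} [Fintype r] [DecidableEq r]

lemma coeff_Th_id (q : A →+* F) (a : MonoidAlgebra A H) (h : H) :
    (Th q (MonoidHom.id H) a).coeff h = q (a.coeff h) := by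
  classical
  induction a using MonoidAlgebra.induction_linear with
  | zero => simp
  | add a b ha hb =>
    rw [map_add, MonoidAlgebra.coeff_add, MonoidAlgebra.coeff_add, Finsupp.add_apply,
      Finsupp.add_apply, map_add, ha, hb]
  | single g c =>
    rw [Th_single, MonoidAlgebra.coeff_single, MonoidAlgebra.coeff_single, Finsupp.single_apply,
      Finsupp.single_apply, MonoidHom.id_apply]
    split_ifs
    · rfl
    · rw [map_zero]

lemma mu_Th (q : A →+* F) (Xs : List (Matrix r r (MonoidAlgebra A H))) (s t : r) (l : List H) :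
    mu (Xs.map (ThM r q (MonoidHom.id H))) s t l = q (mu Xs s t l) := by
  induction Xs generalizing s l with
  | nil =>
    match l with
    | [] =>
      rw [List.map_nil, mu_nil_nil, mu_nil_nil]
      split_ifs <;> simp
    | a :: l => rw [List.map_nil, mu_nil_cons, mu_nil_cons, map_zero]
  | cons X Xs ih =>
    match l with
    | [] => rw [List.map_cons, mu_cons_nil, mu_cons_nil, map_zero]
    | a :: l =>
      rw [List.map_cons, mu_cons_cons, mu_cons_cons, map_sum]
      apply sum_congr rfl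
      intro s' _
      rw [ih, ThM_apply, coeff_Th_id, map_mul]

lemma Lset_Th (q : A →+* F) (Xs : List (Matrix r r (MonoidAlgebra A H))) :
    Lset (Xs.map (ThM r q (MonoidHom.id H))) ⊆ Lset Xs := by
  classical
  intro l hl
  rw [Lset, mem_biUnion] at hl
  obtain ⟨s, _, hl⟩ := hl
  rw [mem_biUnion] at hl
  obtain ⟨t, _, hl⟩ := hl
  apply mem_Lset Xs s t l
  intro h
  rw [Finsupp.mem_support_iff, mu_Th, h, map_zero] at hl
  exact hl rfl

lemma Sset_Th (q : A →+* F) (Xs : List (Matrix r r (MonoidAlgebra A H))) :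
    Sset (Xs.map (ThM r q (MonoidHom.id H))) ⊆ Sset Xs := by
  rintro u ⟨l, hl, l', hl', y, hy, y', hy', rfl⟩
  exact ⟨l, Lset_Th q Xs hl, l', Lset_Th q Xs hl', y, hy, y', hy', rfl⟩

end nat

/-- lifting of a cycle to a subring, with the value of a cochain with values in it -/
theorem reduction' {K : Type u} [Field K] {Γ : Type v} [Group Γ] {r : Type w} [Fintype r]
    [DecidableEq r] {n : ℕ}
    (z : (Fin (n + 1) → (Matrix r r (MonoidAlgebra K Γ))ˣ) →₀ ℤ) (hz : barBoundary z = 0)
    (f : (Fin (n + 2) → Γ) → K) (A : Subring K) (hfA : ∀ g, f g ∈ A)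
    (hA : ∀ c ∈ zcoef z, c ∈ A) :
    ∃ (v : A) (x : (Fin (n + 1) → (Matrix r r (MonoidAlgebra K Γ))ˣ) →
        List (Matrix r r (MonoidAlgebra A (⊤ : Subgroup Γ)))ˣ),
      (v : K) = dennis f z ∧
      (∀ (F : Type u) [CommRing F], IsCyc F (n + 1) z.support z x) ∧
      ∀ (F : Type u) [CommRing F] (q : A →+* F),
        ∑ i ∈ z.support, z i • SS (((ThM r q (MonoidHom.id (⊤ : Subgroup Γ))).toMonoidHom).comp
          (Units.coeHom _))
          (cf fun g : Fin (n + 2) → (⊤ : Subgroup Γ) => q ⟨f fun i => (g i : Γ), hfA _⟩) (x i) =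
          q v := by
  classical
  let H : Subgroup Γ := ⊤
  obtain ⟨L, hL⟩ := exists_lift_chain z A H hA (fun g _ => Subgroup.mem_top g)
  set f' : (Fin (n + 2) → H) → A := fun g => ⟨f fun i => (g i : Γ), hfA _⟩ with hf'
  let θ' : (Matrix r r (MonoidAlgebra A H))ˣ →* Matrix r r (MonoidAlgebra A H) := Units.coeHom _
  let ι₀ : (Matrix r r (MonoidAlgebra A H))ˣ →* (Matrix r r (MonoidAlgebra K Γ))ˣ :=
    Units.map (ThM r A.subtype H.subtype).toMonoidHom
  have hinj : Function.Injective (ThM r A.subtype H.subtype) := by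
    intro M N h
    ext1 a b
    apply Th_injective A.subtype H.subtype Subtype.val_injective Subtype.val_injective
    rw [← ThM_apply, ← ThM_apply, h]
  have hι₀ : Function.Injective ι₀ := Units.map_injective hinj
  have hofFn : ∀ x ∈ z.support, List.ofFn x = (List.ofFn (L x)).map ι₀ := by
    intro x hx
    rw [List.map_ofFn]
    congr 1
    funext i
    exact (hL x hx i).symm
  refine ⟨∑ x ∈ z.support, z x • SS θ' (cf f') (List.ofFn (L x)), fun x => List.ofFn (L x),
    ?_, ?_, ?_⟩
  · rw [dennis_eq]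
    have h1 : ∀ a : A, (a : K) = A.subtype.toAddMonoidHom a := fun a => rfl
    rw [h1, map_sum]
    apply sum_congr rfl
    intro x hx
    rw [map_zsmul]
    congr 1
    rw [hofFn x hx]
    symm
    apply SS_Th ι₀ θ' (Units.coeHom _) A.subtype H.subtype (fun a => rfl)
      A.subtype.toAddMonoidHom (fun c v => by simp)
    intro g l
    apply cf_map
    intro g
    rfl
  · intro F _
    have h1 := isCyc_of_barBoundary z hz F
    exact isCyc_lift ι₀ hι₀ F z.support z _ _ hofFn h1
  · intro F _ q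
    rw [map_sum]
    apply sum_congr rfl
    intro x hx
    have h1 : q (z x • SS θ' (cf f') (List.ofFn (L x))) =
        z x • q.toAddMonoidHom (SS θ' (cf f') (List.ofFn (L x))) :=
      map_zsmul q.toAddMonoidHom _ _
    rw [h1]
    congr 1
    have h2 := SS_Th (MonoidHom.id _) θ' (((ThM r q (MonoidHom.id H)).toMonoidHom).comp θ')
      q (MonoidHom.id H) (fun a => rfl) q.toAddMonoidHom (fun c v => by simp)
      (cf fun g : Fin (n + 2) → H => q ⟨f fun i => (g i : Γ), hfA _⟩) (cf f')
      (fun g l => cf_map (MonoidHom.id H) q.toAddMonoidHom _ f' (fun g => rfl) g l)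
      (List.ofFn (L x))
    have h3 : (List.ofFn (L x)).map (MonoidHom.id (Matrix r r (MonoidAlgebra A H))ˣ) =
        List.ofFn (L x) := List.map_id _
    rw [h3] at h2
    exact h2

/-- **The congruence.** -/
theorem congr_main {K : Type u} [Field K] {Γ : Type v} [Group Γ] {r : Type w} [Fintype r]
    [DecidableEq r] {n : ℕ}
    (z : (Fin (n + 1) → (Matrix r r (MonoidAlgebra K Γ))ˣ) →₀ ℤ) (hz : barBoundary z = 0)
    (m : ℕ) (hm : 0 < m)
    (f : (Fin (n + 2) → Γ) → K) (hf : IsHochschildCocycle f)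
    (hfm : ∀ g, (List.ofFn g).prod ^ m ≠ 1 → f g = 0) (A : Subring K)
    (hA : ∀ c ∈ zcoef z, c ∈ A) (hfA : ∀ g, f g ∈ A) (B₀ : ℕ)
    (hB₀ : ∀ p : ℕ, p.Prime → B₀ < p → p ≡ 1 [MOD m] → ∀ g, ∃ b ∈ A, f g ^ p = f g + p * b) :
    dennis f z ∈ A ∧
    ∃ B : ℕ, ∀ p : ℕ, p.Prime → B < p → p ≡ 1 [MOD m] → ∃ b ∈ A,
      dennis f z ^ p = dennis f z + p * b := by
  classical
  obtain ⟨v, x, hv, hcyc, hred⟩ := reduction' z hz f A hfA hA
  rw [← hv]
  refine ⟨v.2, ?_⟩
  let θ' : (Matrix r r (MonoidAlgebra A (⊤ : Subgroup Γ)))ˣ →*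
    Matrix r r (MonoidAlgebra A (⊤ : Subgroup Γ)) := Units.coeHom _
  let S : Set (⊤ : Subgroup Γ) := ⋃ i ∈ z.support, Sset (XX θ' (x i))
  have hSfin : S.Finite := by
    apply Set.Finite.biUnion z.support.finite_toSet
    intro i _
    exact Sset_finite _
  obtain ⟨B, hB⟩ : ∃ B : ℕ, ∀ u ∈ S, orderOf u ≤ B := by
    refine ⟨hSfin.toFinset.sup orderOf, fun u hu => ?_⟩
    exact Finset.le_sup (f := orderOf) (hSfin.mem_toFinset.2 hu)
  refine ⟨B + B₀, fun p hp hBp hpm => ?_⟩
  have : Fact p.Prime := ⟨hp⟩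
  -- the quotient ring
  let I : Ideal A := Ideal.span {(p : A)}
  let F := A ⧸ I
  let q : A →+* F := Ideal.Quotient.mk I
  suffices h : q (v ^ p) = q v by
    have h1 : v ^ p - v ∈ I := by
      rw [← Ideal.Quotient.eq_zero_iff_mem]
      show q (v ^ p - v) = 0
      rw [map_sub, h, sub_self]
    obtain ⟨b, hb⟩ := Ideal.mem_span_singleton.1 h1
    refine ⟨b, b.2, ?_⟩
    have h2 : v ^ p = v + p * b := by rw [← hb]; ring
    have h3 := congrArg (fun a : A => (a : K)) h2
    push_cast at h3
    exact h3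
  rcases subsingleton_or_nontrivial F with hF | hF
  · exact Subsingleton.elim _ _
  have : CharP F p := by
    rw [CharP.charP_iff_prime_eq_zero hp]
    have : ((p : ℕ) : F) = q (p : A) := by simp [q]
    rw [this]
    exact Ideal.Quotient.eq_zero_iff_mem.2 (Ideal.mem_span_singleton_self _)
  have hc := hred F q
  have hcy := hcyc F
  rw [map_pow, ← hc]
  symm
  have hcoc : IsHochschildCocycle
      fun g : Fin (n + 2) → (⊤ : Subgroup Γ) => q ⟨f fun i => (g i : Γ), hfA _⟩ := by
    apply hoch_push (fun g : Fin (n + 2) → (⊤ : Subgroup Γ) =>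
      (⟨f fun i => (g i : Γ), hfA _⟩ : A)) _ q.toAddMonoidHom
    apply hoch_lift _ A.subtype.toAddMonoidHom Subtype.val_injective
    exact hoch_comp f hf (⊤ : Subgroup Γ).subtype
  have hfam := fam_cf _ hcoc
  refine frob_congr' hpm _ (n + 1) (by omega) _ hfam.equiv hfam.coc ?_ ?_ z.support z x hcy.1 ?_
    hcy.2
  · intro g l hg
    refine cf_eq_zero _ (fun g : (⊤ : Subgroup Γ) => g ^ m ≠ 1) ?_ ?_ g hg l
    · intro y g h hc
      apply h
      rw [conj_pow] at hc
      have : g ^ m = y⁻¹ * (y * g ^ m * y⁻¹) * y := by group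
      rw [this, hc]
      group
    · intro g h
      have h1 : f (fun i => (g i : Γ)) = 0 := by
        apply hfm
        intro hc
        apply h
        apply Subtype.ext
        have h2 := map_list_prod (⊤ : Subgroup Γ).subtype (List.ofFn g)
        rw [List.map_ofFn] at h2
        have h3 : ((List.ofFn g).prod : Γ) = (List.ofFn fun i => (g i : Γ)).prod := h2
        show ((List.ofFn g).prod : Γ) ^ m = 1
        rw [h3]
        exact hc
      have h4 : (⟨f fun i => (g i : Γ), hfA _⟩ : A) = 0 := Subtype.ext h1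
      show q ⟨f fun i => (g i : Γ), hfA _⟩ = 0
      rw [h4, map_zero]
  · intro g l
    unfold cf
    split_ifs
    · have h0 : ∀ g : Fin (n + 2) → (⊤ : Subgroup Γ), q ⟨f fun i => (g i : Γ), hfA _⟩ ^ p =
          q ⟨f fun i => (g i : Γ), hfA _⟩ := by
        intro g
        obtain ⟨b, hb, hbt⟩ := hB₀ p hp (by omega) hpm fun i => (g i : Γ)
        have h1 : (⟨f fun i => (g i : Γ), hfA _⟩ : A) ^ p =
            ⟨f fun i => (g i : Γ), hfA _⟩ + p * ⟨b, hb⟩ := by
          apply Subtype.ext
          push_cast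
          exact hbt
        rw [← map_pow, h1, map_add, map_mul, map_natCast, CharP.cast_eq_zero, zero_mul, add_zero]
      exact h0 _
    · exact zero_pow hp.ne_zero
  · intro i hi u hu hu1
    have hu' : u ∈ S := by
      rw [Set.mem_iUnion₂]
      refine ⟨i, hi, ?_⟩
      have h1 : XX (((ThM r q (MonoidHom.id (⊤ : Subgroup Γ))).toMonoidHom).comp θ') (x i) =
          (XX θ' (x i)).map (ThM r q (MonoidHom.id (⊤ : Subgroup Γ))) := by
        have h2 := XX_Th (MonoidHom.id _) θ'
          (((ThM r q (MonoidHom.id (⊤ : Subgroup Γ))).toMonoidHom).comp θ') q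
          (MonoidHom.id (⊤ : Subgroup Γ)) (fun a => rfl) (x i)
        have h3 : (x i).map (MonoidHom.id (Matrix r r (MonoidAlgebra A (⊤ : Subgroup Γ)))ˣ) =
          x i := List.map_id _
        rw [h3] at h2
        exact h2
      have h2 : u ∈ Sset (XX (((ThM r q (MonoidHom.id (⊤ : Subgroup Γ))).toMonoidHom).comp θ')
        (x i)) := hu
      rw [h1] at h2
      exact Sset_Th q _ h2
    have h1 : 0 < orderOf u := by
      rw [orderOf_pos_iff, isOfFinOrder_iff_pow_eq_one]
      exact ⟨p * m, Nat.mul_pos hp.pos hm, hu1⟩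
    have h2 : Nat.Coprime (orderOf u) p := by
      rw [Nat.coprime_comm, Nat.Prime.coprime_iff_not_dvd hp]
      intro hd
      have h3 := Nat.le_of_dvd h1 hd
      have h4 := hB u hu'
      omega
    have h3 : orderOf u ∣ m := by
      have h4 : orderOf u ∣ p * m := orderOf_dvd_of_pow_eq_one hu1
      exact h2.dvd_of_dvd_mul_left h4
    exact pow_p hpm u (orderOf_dvd_iff_pow_eq_one.1 h3)

end Pool.Agent.Y75.Hk
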