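import Pool.Agent.W644.HK.CharP

/-!
# The Frobenius congruence for Dennis traces at elements of finite order, for all groups
-/

set_option autoImplicit false
set_option linter.unusedSectionVars false

namespace Pool.Agent.Y75.Hk

open Finset Pool.Agent.W644.HK

universe u v w x y z

section neck

variable {G : Type v} [Group G] {p : ℕ} [hp : Fact p.Prime] {V : Type x} [AddCommGroup V]

lemma dvd_of_sh (u : ZMod p → G) (i d : ℕ) (h : sh i u = sh (i + d) u)
    (hu : ∃ j, u (j + 1) ≠ u j) : p ∣ d := by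
  by_contra hd
  obtain ⟨j, hj⟩ := hu
  have h1 : ∀ y : ZMod p, u y = u (y + d) := by
    intro y
    have := congrFun h (y - i)
    simp only [sh] at this
    rw [sub_add_cancel] at this
    rw [this]
    congr 1
    push_cast
    ring
  have h2 : ∀ (k : ℕ) (y : ZMod p), u y = u (y + (k : ZMod p) * d) := by
    intro k
    induction k with
    | zero => intro y; simp
    | succ k ih =>
      intro y
      rw [ih y, h1 (y + (k : ZMod p) * d)]
      congr 1
      push_cast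
      ring
  have hd0 : (d : ZMod p) ≠ 0 := by
    rw [Ne, ZMod.natCast_eq_zero_iff]
    exact hd
  apply hj
  have h3 := h2 ((d : ZMod p)⁻¹).val j
  rw [ZMod.natCast_val, ZMod.cast_id, inv_mul_cancel₀ hd0] at h3
  exact h3.symm

/-- the condition at the necklace `(Q, Y)` -/
def Good (p m : ℕ) [NeZero p] (Q Y : ZMod p → G) : Prop :=
  (∀ j, uu Q Y (j + 1) = uu Q Y j) → uu Q Y 0 ^ (p * m) = 1 → uu Q Y 0 ^ p = uu Q Y 0

lemma yy_const (Q Y : ZMod p → G) (hc : ∀ j, uu Q Y (j + 1) = uu Q Y j) (i : ℕ) :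
    yy Q Y i = yy Q Y 0 * uu Q Y 0 ^ i := by
  induction i with
  | zero => simp
  | succ i ih =>
    rw [yy_succ, ih, const_of_fixed (uu Q Y) hc (i : ZMod p), mul_assoc, ← pow_succ]

lemma ev_aux' {m : ℕ} (Q Y : ZMod p → G) (hg : Good p m Q Y)
    (hP : qq Q p ^ p = qq Q p) (hm : qq Q p ^ m = 1) (i d : ℕ)
    (hij : sh i (uu Q Y) = sh (i + d) (uu Q Y)) :
    (qq Q p ^ i)⁻¹ * yy Q Y i = (qq Q p ^ (i + d))⁻¹ * yy Q Y (i + d) := by
  set P := qq Q p with hPdef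
  by_cases hc : ∀ j, uu Q Y (j + 1) = uu Q Y j
  · -- constant necklace
    set u := uu Q Y 0 with hu
    have h1 : P * yy Q Y 0 = yy Q Y 0 * u ^ p := by
      have h2 := yy_add_p Q Y 0
      rw [zero_add] at h2
      rw [← h2, yy_const Q Y hc p]
    have h2 : P = yy Q Y 0 * u ^ p * (yy Q Y 0)⁻¹ := by
      rw [← h1]
      group
    have h3 : u ^ (p * m) = 1 := by
      rw [h2, conj_pow, ← pow_mul] at hm
      have h4 : u ^ (p * m) = (yy Q Y 0)⁻¹ * (yy Q Y 0 * u ^ (p * m) * (yy Q Y 0)⁻¹) *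
          yy Q Y 0 := by group
      rw [h4, hm]
      group
    have h4 := hg hc h3
    rw [← hu] at h4
    rw [h4] at h2
    rw [yy_const Q Y hc i, yy_const Q Y hc (i + d), ← hu, h2, conj_pow, conj_pow]
    group
  · push Not at hc
    obtain ⟨e, rfl⟩ := dvd_of_sh _ i d hij hc
    rw [mul_comm p e, yy_add_mul_p, ← hPdef, pow_add, mul_comm e p, pow_mul, hP]
    group

lemma ev_eq' {m : ℕ} (Q Y : ZMod p → G) (hg : Good p m Q Y)
    (hP : qq Q p ^ p = qq Q p) (hm : qq Q p ^ m = 1) (j : ℕ)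
    (hj : sh j (uu Q Y) = rep (uu Q Y)) :
    ev (qq Q p) Q Y = (qq Q p ^ j)⁻¹ * yy Q Y j := by
  have h1 := sel_spec (uu Q Y)
  rw [← hj] at h1
  unfold ev
  rcases le_total (sel (uu Q Y)) j with hle | hle
  · obtain ⟨d, hd⟩ := Nat.exists_eq_add_of_le hle
    rw [hd] at h1 ⊢
    exact ev_aux' Q Y hg hP hm _ d h1
  · obtain ⟨d, hd⟩ := Nat.exists_eq_add_of_le hle
    rw [hd] at h1 ⊢
    exact (ev_aux' Q Y hg hP hm _ d h1.symm).symm

lemma good_tau {m : ℕ} (Q Y : ZMod p → G) (hg : Good p m Q Y) :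
    Good p m (tau G p Q) (tau G p Y) := by
  intro hc h
  rw [uu_tau] at hc h ⊢
  have hc' : ∀ j, uu Q Y (j + 1) = uu Q Y j := by
    intro j
    have := hc (j - 1)
    simp only [sh, Nat.cast_one] at this
    rw [sub_add_cancel] at this
    exact this
  have h0 : sh 1 (uu Q Y) 0 = uu Q Y 0 := by
    simp only [sh, Nat.cast_one, zero_add]
    have := hc' 0
    rwa [zero_add] at this
  rw [h0] at h ⊢
  exact hg hc' h

lemma ev_tau' {m : ℕ} (Q Y : ZMod p → G) (hg : Good p m Q Y)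
    (hP : qq Q p ^ p = qq Q p) (hm : qq Q p ^ m = 1) :
    ev (qq (tau G p Q) p) (tau G p Q) (tau G p Y) =
      (Q 0)⁻¹ * (qq Q p * ev (qq Q p) Q Y) := by
  obtain ⟨j, hj⟩ := exists_sel (uu (tau G p Q) (tau G p Y))
  have hconj : ∀ n : ℕ, ((Q 0)⁻¹ * qq Q p * Q 0) ^ n = (Q 0)⁻¹ * qq Q p ^ n * Q 0 := by
    intro n
    have := conj_pow (a := (Q 0)⁻¹) (b := qq Q p) (i := n)
    rwa [inv_inv] at this
  have hP' : qq (tau G p Q) p ^ p = qq (tau G p Q) p := by
    rw [qq_tau_p, hconj, hP]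
  have hm' : qq (tau G p Q) p ^ m = 1 := by
    rw [qq_tau_p, hconj, hm]
    group
  rw [ev_eq' (tau G p Q) (tau G p Y) (good_tau Q Y hg) hP' hm' j hj]
  rw [uu_tau, rep_sh, sh_sh] at hj
  rw [ev_eq' Q Y hg hP hm (j + 1) hj, yy_tau, qq_tau_p, hconj, pow_succ']
  group

/-- the cochain on necklaces given by a vertex map -/
noncomputable def CE' (c : G → List G → V) (e : G → (ZMod p → G) → (ZMod p → G) → G)
    (Q : ZMod p → G) (Ys : List (ZMod p → G)) : V :=
  c (qq Q p) (Ys.map (e (qq Q p) Q))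

/-- the prism cochain between two vertex maps -/
noncomputable def PE' (c : G → List G → V) (e0 e1 : G → (ZMod p → G) → (ZMod p → G) → G)
    (Q : ZMod p → G) (Ys : List (ZMod p → G)) : V :=
  prism (e0 (qq Q p) Q) (e1 (qq Q p) Q) (c (qq Q p)) Ys

lemma PE'_conj (c : G → List G → V)
    (hc : ∀ x g l, c (x * g * x⁻¹) (l.map (x * ·)) = c g l)
    (e0 e1 : G → (ZMod p → G) → (ZMod p → G) → G)
    (h0 : ∀ h x Q Y, e0 (x 0 * h * (x 0)⁻¹) (x * Q * (tau G p x)⁻¹) (x * Y) = x 0 * e0 h Q Y)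
    (h1 : ∀ h x Q Y, e1 (x 0 * h * (x 0)⁻¹) (x * Q * (tau G p x)⁻¹) (x * Y) = x 0 * e1 h Q Y)
    (x Q : ZMod p → G) (l : List (ZMod p → G)) :
    PE' c e0 e1 (x * Q * (tau G p x)⁻¹) (l.map (x * ·)) = PE' c e0 e1 Q l := by
  unfold PE'
  rw [qq_conj_p]
  exact prism_congr _ _ _ _ (x * ·) (x 0 * ·) (fun a => h0 _ x Q a) (fun a => h1 _ x Q a) _ _
      (fun l => hc (x 0) _ l) l

lemma bd_PE' (c : G → List G → V) (n : ℕ)
    (hcoc : ∀ (g : G) (l : List G), l.length = n + 2 → bd (c g) l = 0)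
    (e0 e1 : G → (ZMod p → G) → (ZMod p → G) → G)
    (Q : ZMod p → G) (l : List (ZMod p → G)) (hl : l.length = n + 1) :
    bd (PE' c e0 e1 Q) l = CE' c e1 Q l - CE' c e0 Q l := by
  unfold CE'
  rw [← prism_identity,
      prism_eq_zero _ _ (bd (c (qq Q p))) l (fun l' hl' => hcoc _ l' (by omega)), add_zero]
  rfl

lemma pow_p {m : ℕ} (hpm : p ≡ 1 [MOD m]) (g : G) (hg : g ^ m = 1) : g ^ p = g := by
  have h1 : orderOf g ∣ m := orderOf_dvd_of_pow_eq_one hg
  have h2 : p ≡ 1 [MOD orderOf g] := hpm.of_dvd h1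
  have h3 := pow_eq_pow_iff_modEq.2 h2
  rwa [pow_one] at h3

lemma CE'_ev_tau {m : ℕ} (hpm : p ≡ 1 [MOD m]) (c : G → List G → V)
    (hc : ∀ x g l, c (x * g * x⁻¹) (l.map (x * ·)) = c g l)
    (hcm : ∀ g l, g ^ m ≠ 1 → c g l = 0)
    (Q : ZMod p → G) (l : List (ZMod p → G)) (hg : ∀ Y ∈ l, Good p m Q Y) :
    CE' c ev (tau G p Q) (l.map (tau G p)) = CE' c ev Q l := by
  have hconj : ∀ n : ℕ, ((Q 0)⁻¹ * qq Q p * Q 0) ^ n = (Q 0)⁻¹ * qq Q p ^ n * Q 0 := by
    intro n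
    have := conj_pow (a := (Q 0)⁻¹) (b := qq Q p) (i := n)
    rwa [inv_inv] at this
  by_cases hm : qq Q p ^ m = 1
  · have hP := pow_p hpm _ hm
    unfold CE'
    have h1 : (l.map (tau G p)).map (ev (qq (tau G p Q) p) (tau G p Q)) =
        ((l.map (ev (qq Q p) Q)).map (qq Q p * ·)).map ((Q 0)⁻¹ * ·) := by
      rw [List.map_map, List.map_map, List.map_map]
      apply List.map_congr_left
      intro Y hY
      exact ev_tau' Q Y (hg Y hY) hP hm
    rw [h1, qq_tau_p]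
    have h2 := hc ((Q 0)⁻¹) (qq Q p) ((l.map (ev (qq Q p) Q)).map (qq Q p * ·))
    rw [inv_inv] at h2
    rw [h2]
    have h3 := hc (qq Q p) (qq Q p) (l.map (ev (qq Q p) Q))
    rwa [mul_inv_cancel_right] at h3
  · unfold CE'
    rw [hcm _ _ hm, hcm]
    rw [qq_tau_p, hconj]
    intro h
    apply hm
    have : qq Q p ^ m = Q 0 * ((Q 0)⁻¹ * qq Q p ^ m * Q 0) * (Q 0)⁻¹ := by group
    rw [this, h]
    group

end neck

end Pool.Agent.Y75.Hk
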