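import Pool.Agent.Y75.Hk.One

/-!
# The Frobenius congruence for Dennis traces at elements of finite order, for all groups
-/

set_option autoImplicit false
set_option linter.unusedSectionVars false

namespace Pool.Agent.Y75.Hk

open Finset Pool.Agent.W644.HK

universe u v w x y z

variable {k : Type u} [CommRing k] {G : Type v} [Group G] {r : Type w} [Fintype r] [DecidableEq r]
  {V : Type x} [AddCommGroup V] [Module k V]

/-- the group elements `y⁻¹ P y'` for words of the list with products `P`, `P'` and initial points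
`y` and `y'` of letters -/
def Sset (Xs : List (Matrix r r (MonoidAlgebra k G))) : Set G :=
  {u | ∃ l ∈ Lset Xs, ∃ l' ∈ Lset Xs, ∃ y ∈ pts 1 l, ∃ y' ∈ pts 1 l', u = y⁻¹ * l.prod * y'}

lemma Sset_finite (Xs : List (Matrix r r (MonoidAlgebra k G))) : (Sset Xs).Finite := by
  classical
  refine Set.Finite.subset (((Lset Xs ×ˢ Lset Xs).biUnion fun x =>
    ((pts 1 x.1).toFinset ×ˢ (pts 1 x.2).toFinset).image
      fun y => y.1⁻¹ * x.1.prod * y.2) : Finset G).finite_toSet ?_
  rintro u ⟨l, hl, l', hl', y, hy, y', hy', rfl⟩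
  rw [Finset.mem_coe, mem_biUnion]
  refine ⟨(l, l'), mem_product.2 ⟨hl, hl'⟩, mem_image.2 ⟨(y, y'), mem_product.2 ⟨?_, ?_⟩, rfl⟩⟩
  · exact List.mem_toFinset.2 hy
  · exact List.mem_toFinset.2 hy'

variable {p : ℕ} [hp : Fact p.Prime]

lemma good_of_Sset {m : ℕ} (Xs : List (Matrix r r (MonoidAlgebra k G)))
    (hS : ∀ u ∈ Sset Xs, u ^ (p * m) = 1 → u ^ p = u) (l : List (ZMod p → G))
    (hl : l ∈ Aset p Xs) (Y : ZMod p → G) (hY : Y ∈ pts 1 l) : Good p m l.prod Y := by
  intro _ h
  refine hS _ ?_ h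
  have h1 : ∀ j, (unt l j).prod = l.prod j := by
    intro j
    exact (map_list_prod (Pi.evalMonoidHom (fun _ : ZMod p => G) j) l).symm
  have h2 : ∀ j, Y j ∈ pts 1 (unt l j) := by
    intro j
    have h3 : pts 1 (unt l j) = (pts 1 l).map (fun Y => Y j) :=
      (map_pts (fun Y : ZMod p → G => Y j) (fun _ _ => rfl) 1 l).symm
    rw [h3]
    exact List.mem_map_of_mem hY
  refine ⟨unt l 0, (mem_Aset _ _).1 hl 0, unt l (0 + 1), (mem_Aset _ _).1 hl _,
    Y 0, h2 0, Y (0 + 1), h2 _, ?_⟩
  rw [h1]
  rfl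

lemma CE'_ev_const {m : ℕ} (c : G → List G → V)
    (hcm : ∀ g l, g ^ m ≠ 1 → c g l = 0) (g : G) (hg : g ^ (p * m) = 1 → g ^ p = g)
    (l : List G) :
    CE' c ev (fun _ : ZMod p => g) (l.map fun y => fun _ => y) = c g l := by
  unfold CE'
  rw [qq_const]
  by_cases h : g ^ (p * m) = 1
  · rw [hg h, List.map_map]
    have : (ev g fun _ : ZMod p => g) ∘ (fun y => fun _ => y) = id := by
      funext y
      exact ev_const g y
    rw [this, List.map_id]
  · rw [hcm, hcm]
    · intro hc
      apply h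
      rw [mul_comm, pow_mul, hc, one_pow]
    · intro hc
      apply h
      rw [pow_mul, hc]

lemma TT_ev' [CharP k p] {m : ℕ} (hpm : p ≡ 1 [MOD m]) (c : G → List G → k)
    (hc : ∀ x g l, c (x * g * x⁻¹) (l.map (x * ·)) = c g l)
    (hcm : ∀ g l, g ^ m ≠ 1 → c g l = 0)
    (Xs : List (Matrix r r (MonoidAlgebra k G))) (hne : Xs ≠ [])
    (hS : ∀ u ∈ Sset Xs, u ^ (p * m) = 1 → u ^ p = u) :
    TT (pperm (Equiv.addRight (1 : ZMod p))) (CF (CE' (p := p) c ev)) (Xs.map om) =
      ∑ s, ∑ l ∈ Lset Xs, mu Xs s s l ^ p * c l.prod (pts 1 l) := by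
  classical
  set π : (ZMod p → r) ≃ (ZMod p → r) := pperm (Equiv.addRight (1 : ZMod p)) with hπ
  set N : (ZMod p → r) × List (ZMod p → G) → k := fun x =>
    mu (Xs.map om) x.1 (π x.1) x.2 * CF (CE' (p := p) c ev) x.2 with hN
  have h1 : TT π (CF (CE' (p := p) c ev)) (Xs.map om) =
      ∑ x ∈ univ ×ˢ Aset p Xs, N x := by
    rw [sum_product]
    unfold TT
    apply sum_congr rfl
    intro s _
    rw [EE_Aset]
  rw [h1, frob_sum p rr N _ (univ ×ˢ Aset p Xs) rfl]
  · rw [← sum_product']
    symm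
    apply sum_nbij' (fun y : r × List G => ((fun _ : ZMod p => y.1), y.2.map fun g => fun _ => g))
      (fun x => (x.1 0, unt x.2 0))
    · rintro ⟨s, l⟩ h
      rw [mem_product] at h
      rw [mem_filter, mem_product]
      refine ⟨⟨mem_univ _, ?_⟩, ?_⟩
      · rw [mem_Aset]
        intro j
        have : unt (l.map fun g => fun _ : ZMod p => g) j = l := by
          simp [unt, Function.comp_def]
        simpa only [this] using h.2
      · refine Prod.ext ?_ ?_
        · rfl
        · simp only [rr, List.map_map]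
          rfl
    · rintro ⟨s, l⟩ h
      rw [mem_filter, mem_product] at h
      rw [mem_product]
      exact ⟨mem_univ _, (mem_Aset _ _).1 h.1.2 0⟩
    · rintro ⟨s, l⟩ _
      refine Prod.ext rfl ?_
      simp [unt, Function.comp_def]
    · rintro ⟨s, l⟩ h
      rw [mem_filter] at h
      have h2 := h.2
      simp only [rr, Prod.mk.injEq] at h2
      refine Prod.ext ?_ ?_
      · funext j
        exact (const_of_fixed s (fun j => congrFun h2.1 j) j).symm
      · simp only [unt, List.map_map]
        conv_rhs => rw [← List.map_id l]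
        apply List.map_congr_left
        intro g hg
        have h3 : tau G p g = g := by
          have h4 : l.map (tau G p) = l.map id := by rw [h2.2, List.map_id]
          exact (List.map_inj_left.1 h4) g hg
        funext j
        exact (const_of_fixed g (fun j => congrFun h3 j) j).symm
    · rintro ⟨s, l⟩ hsl
      rw [mem_product] at hsl
      have hl : l ∈ Lset Xs := hsl.2
      simp only [hN]
      congr 1
      · rw [mu_om]
        have : ∀ j : ZMod p, (l.map fun g => fun _ : ZMod p => g).map (fun g => g j) = l := by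
          intro j
          simp [Function.comp_def]
        simp only [this]
        simp [hπ, ZMod.card]
      · rw [CF]
        have h5 : (l.map fun g => fun _ : ZMod p => g).prod = fun _ => l.prod := by
          funext j
          have := map_list_prod (Pi.evalMonoidHom (fun _ : ZMod p => G) j)
            (l.map fun g => fun _ : ZMod p => g)
          rw [Pi.evalMonoidHom_apply] at this
          rw [this]
          simp [Function.comp_def]
        have h6 : pts 1 (l.map fun g => fun _ : ZMod p => g) =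
            (pts 1 l).map fun g => fun _ : ZMod p => g := by
          rw [map_pts (fun g => fun _ : ZMod p => g) (fun _ _ => rfl)]
          rfl
        rw [h5, h6, CE'_ev_const c hcm]
        apply hS
        have hlen : l.length = Xs.length := length_of_mem_Lset Xs l hl
        obtain ⟨a, l', hal⟩ : ∃ a l', l = a :: l' := by
          cases l with
          | nil =>
            exfalso
            apply hne
            exact List.eq_nil_of_length_eq_zero hlen.symm
          | cons a l' => exact ⟨a, l', rfl⟩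
        refine ⟨l, hl, l, hl, 1, ?_, 1, ?_, by simp⟩
        · rw [hal, pts_cons]
          exact List.mem_cons_self
        · rw [hal, pts_cons]
          exact List.mem_cons_self
  · rintro ⟨s, l⟩ h
    rw [mem_product] at h ⊢
    refine ⟨mem_univ _, ?_⟩
    rw [mem_Aset] at h ⊢
    intro j
    simp only [rr]
    rw [unt_map_tau]
    exact h.2 (j + 1)
  · intro x _
    exact rr_iterate_p x
  · rintro ⟨s, l⟩ hsl
    rw [mem_product] at hsl
    simp only [hN, rr]
    congr 1
    · rw [mu_om, mu_om]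
      refine Fintype.prod_equiv (Equiv.addRight (1 : ZMod p)) _ _ fun j => ?_
      have := unt_map_tau l j
      simp only [unt] at this
      rw [this]
      rfl
    · rw [CF, CF]
      have h5 : (l.map (tau G p)).prod = tau G p l.prod := (map_list_prod (tau G p) l).symm
      have h6 : pts 1 (l.map (tau G p)) = (pts 1 l).map (tau G p) := by
        rw [map_pts (tau G p) (fun a b => (tau G p).map_mul a b), map_one]
      rw [h5, h6, CE'_ev_tau hpm c hc hcm]
      intro Y hY
      exact good_of_Sset Xs hS l hsl.2 Y hY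

lemma TT_e0' {m : ℕ} (hpm : p ≡ 1 [MOD m]) (c : G → List G → V)
    (hcm : ∀ g l, g ^ m ≠ 1 → c g l = 0) (Xs : List (Matrix r r (MonoidAlgebra k G)))
    (hXs : Xs.prod = 1) :
    TT (pperm (Equiv.addRight (1 : ZMod p))) (CF (CE' (p := p) c e0)) (Xs.map om) =
      TT (Equiv.refl r) (CF c) Xs := by
  let c' : G → List G → V := fun g l => c (g ^ p) l
  have h1 : cp p c' = c := by
    funext P l
    unfold cp
    split_ifs with h
    · show c (h.choose ^ p) l = c P l
      rw [h.choose_spec]
    · symm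
      apply hcm
      intro hP
      exact h ⟨P, pow_p hpm P hP⟩
  have h2 : CE (p := p) c' e0 = CE' (p := p) c e0 := by
    funext Q l
    rw [CE_e0, h1]
    rfl
  have h3 := TT_e0 (p := p) (V := V) c' Xs hXs
  rw [h1, h2] at h3
  exact h3

/-- **Frobenius congruence** at the elements of order dividing `m`, for `p ≡ 1 mod m`, all groups. -/
theorem frob_congr' [CharP k p] {m : ℕ} (hpm : p ≡ 1 [MOD m])
    {𝒢 : Type y} [Group 𝒢] (θ : 𝒢 →* Matrix r r (MonoidAlgebra k G))
    (n : ℕ) (hn : 1 ≤ n) (c : G → List G → k)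
    (hc : ∀ x g l, c (x * g * x⁻¹) (l.map (x * ·)) = c g l)
    (hcoc : ∀ (g : G) (l : List G), l.length = n + 2 → bd (c g) l = 0)
    (hcm : ∀ g l, g ^ m ≠ 1 → c g l = 0)
    (hfr : ∀ g l, c g l ^ p = c g l)
    {ι : Type z} (I : Finset ι) (mm : ι → ℤ) (x : ι → List 𝒢) (hx : ∀ i ∈ I, (x i).length = n)
    (hS : ∀ i ∈ I, ∀ u ∈ Sset (XX θ (x i)), u ^ (p * m) = 1 → u ^ p = u)
    (hz : ∀ γ : List 𝒢 → k,
      ∑ i ∈ I, mm i • ∑ j ∈ range (n + 1), (-1 : ℤ) ^ j • γ (bf j (x i)) = 0) :
    ∑ i ∈ I, mm i • SS θ c (x i) = (∑ i ∈ I, mm i • SS θ c (x i)) ^ p := by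
  set θ' := omc (ZMod p) θ with hθ'
  set π : (ZMod p → r) ≃ (ZMod p → r) := pperm (Equiv.addRight (1 : ZMod p)) with hπ
  have h1 : ∑ i ∈ I, mm i • TT π (CF fun Q => bd (PE' (p := p) c e0 ev Q)) (XX θ' (x i)) = 0 := by
    rw [← hz fun y => TT π (CF (PE' (p := p) c e0 ev)) (XX θ' y)]
    apply sum_congr rfl
    intro i hi
    rw [TT_bd θ' π (tau G p) (fun a s s' φ => LL_om_perm _ _ _ _ _) _
      (fun x Q l => PE'_conj c hc e0 ev e0_conj ev_conj x Q l) (x i) (by rw [hx i hi]; exact hn),
      hx i hi]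
  have h2 : ∀ i ∈ I, TT π (CF fun Q => bd (PE' (p := p) c e0 ev Q)) (XX θ' (x i)) =
      TT π (CF (CE' (p := p) c ev)) (XX θ' (x i)) -
        TT π (CF (CE' (p := p) c e0)) (XX θ' (x i)) := by
    intro i hi
    rw [← TT_sub_fun]
    apply TT_congr
    intro l hl
    rw [length_XX, hx i hi] at hl
    rw [CF, bd_PE' c n hcoc e0 ev _ _ (by rw [length_pts, hl])]
    rfl
  have h3 : ∑ i ∈ I, mm i • TT π (CF (CE' (p := p) c ev)) (XX θ' (x i)) =
      ∑ i ∈ I, mm i • TT π (CF (CE' (p := p) c e0)) (XX θ' (x i)) := by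
    rw [← sub_eq_zero, ← sum_sub_distrib, ← h1]
    apply sum_congr rfl
    intro i hi
    rw [h2 i hi, smul_sub]
  have h4 : ∀ i ∈ I, TT π (CF (CE' (p := p) c e0)) (XX θ' (x i)) = SS θ c (x i) := by
    intro i _
    rw [hθ', XX_om, hπ, TT_e0' hpm c hcm (XX θ (x i)) (prod_XX θ (x i))]
    rfl
  have h5 : ∀ i ∈ I, TT π (CF (CE' (p := p) c ev)) (XX θ' (x i)) = SS θ c (x i) ^ p := by
    intro i hi
    rw [hθ', XX_om, hπ, TT_ev' hpm c hc hcm (XX θ (x i)) (by
      intro h
      have := congrArg List.length h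
      rw [length_XX] at this
      simp at this) (hS i hi), TT_refl_pow c hfr]
    rfl
  have h6 : ∑ i ∈ I, mm i • SS θ c (x i) =
      ∑ i ∈ I, mm i • TT π (CF (CE' (p := p) c e0)) (XX θ' (x i)) :=
    sum_congr rfl fun i hi => by rw [h4 i hi]
  have h7 : ∑ i ∈ I, mm i • TT π (CF (CE' (p := p) c ev)) (XX θ' (x i)) =
      ∑ i ∈ I, mm i • SS θ c (x i) ^ p := sum_congr rfl fun i hi => by rw [h5 i hi]
  have h8 : (∑ i ∈ I, mm i • SS θ c (x i)) ^ p = ∑ i ∈ I, mm i • SS θ c (x i) ^ p := by
    rw [sum_pow_char p]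
    apply sum_congr rfl
    intro i _
    rw [zsmul_eq_mul, zsmul_eq_mul, mul_pow]
    congr 1
    have := map_intCast (frobenius k p) (mm i)
    rw [frobenius_def] at this
    exact this
  rw [h8, ← h7, h3, ← h6]

end Pool.Agent.Y75.Hk
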